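import Pool.Agent.W787.KG.Defs

/-! KG-BB (helper168, for helper787): the Duhamel operator -/

set_option autoImplicit false

open MeasureTheory Set Metric Filter Topology Real

namespace Pool.Agent.W168.KG

open Pool.Agent.W787.KG

/-- the integrand of the Duhamel operator is jointly continuous -/
theorem cont_int (h3 : S_NC) (f h : ℝ → E → ℝ) (K : ℝ)
    (hf : Continuous (fun z : ℝ × E => f z.1 z.2)) (hh : Continuous (fun z : ℝ × E => h z.1 z.2))
    (hfK : ∀ t ξ, |f t ξ| ≤ K * Wg 2 1 1 ξ) (hhK : ∀ t ξ, |h t ξ| ≤ K * Wg 2 1 1 ξ) :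
    Continuous (fun z : (ℝ × E) × ℝ =>
      Real.exp (-(max z.1.1 0 - z.2) * ‖z.1.2‖ ^ 2) * NN (f z.2) (h z.2) z.1.2) := by
  have h5 := h3 f h K hf hh hfK hhK
  have h6 : Continuous (fun z : (ℝ × E) × ℝ => NN (f z.2) (h z.2) z.1.2) :=
    h5.comp (continuous_snd.prodMk (continuous_snd.comp continuous_fst))
  have h7 : Continuous (fun z : (ℝ × E) × ℝ => Real.exp (-(max z.1.1 0 - z.2) * ‖z.1.2‖ ^ 2)) := by
    fun_prop
  exact h7.mul h6

theorem cont_BB (h3 : S_NC) (f h : ℝ → E → ℝ) (K : ℝ)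
    (hf : Continuous (fun z : ℝ × E => f z.1 z.2)) (hh : Continuous (fun z : ℝ × E => h z.1 z.2))
    (hfK : ∀ t ξ, |f t ξ| ≤ K * Wg 2 1 1 ξ) (hhK : ∀ t ξ, |h t ξ| ≤ K * Wg 2 1 1 ξ) :
    Continuous (fun z : ℝ × E => BB f h z.1 z.2) := by
  have h7 := cont_int h3 f h K hf hh hfK hhK
  unfold BB
  exact intervalIntegral.continuous_parametric_intervalIntegral_of_continuous (a₀ := (0 : ℝ))
    (f := fun (z : ℝ × E) (s : ℝ) =>
      Real.exp (-(max z.1 0 - s) * ‖z.2‖ ^ 2) * NN (f s) (h s) z.2) h7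
    (s := fun z : ℝ × E => max z.1 0) (continuous_fst.max continuous_const)

theorem int_s (h3 : S_NC) (f h : ℝ → E → ℝ) (K : ℝ)
    (hf : Continuous (fun z : ℝ × E => f z.1 z.2)) (hh : Continuous (fun z : ℝ × E => h z.1 z.2))
    (hfK : ∀ t ξ, |f t ξ| ≤ K * Wg 2 1 1 ξ) (hhK : ∀ t ξ, |h t ξ| ≤ K * Wg 2 1 1 ξ) (t : ℝ) (ξ : E)
    (a b : ℝ) :
    IntervalIntegrable (fun s => Real.exp (-(max t 0 - s) * ‖ξ‖ ^ 2) * NN (f s) (h s) ξ)
      volume a b := by
  have h7 := cont_int h3 f h K hf hh hfK hhK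
  have h8 : Continuous (fun s : ℝ => (((t, ξ) : ℝ × E), s)) := by fun_prop
  exact (h7.comp h8).intervalIntegrable a b

theorem cont_slice (f : ℝ → E → ℝ) (hf : Continuous (fun z : ℝ × E => f z.1 z.2)) (s : ℝ) :
    Continuous (f s) := by
  have h8 : Continuous (fun ξ : E => ((s, ξ) : ℝ × E)) := by fun_prop
  exact hf.comp h8

theorem gint (L : ℝ) (hL : 0 < L) (T : ℝ) (hT : 0 ≤ T) (ξ : E) :
    IntervalIntegrable (fun s : ℝ => Real.exp (-(T - s) * ‖ξ‖ ^ 2) * ‖ξ‖ / Real.sqrt (s + 1)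
      * Wg 6 (Real.sqrt (s + 1)) L ξ) volume 0 T := by
  apply ContinuousOn.intervalIntegrable
  rw [uIcc_of_le hT]
  apply ContinuousOn.mul
  · apply ContinuousOn.div
    · fun_prop
    · fun_prop
    · intro s hs
      have : 0 < s + 1 := by linarith [hs.1]
      exact (Real.sqrt_pos.2 this).ne'
  · unfold Wg
    apply ContinuousOn.div
    · fun_prop
    · fun_prop
    · intro s _
      have h0 := Real.sqrt_nonneg (s + 1)
      positivity

theorem bb (h1 : S_NB) (h2 : S_DU) (h3 : S_NC) (h4 : S_WE) : S_BB := by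
  obtain ⟨C₁, hC₁, h1⟩ := h1 6 (by norm_num)
  obtain ⟨C₂, hC₂, h2⟩ := h2
  obtain ⟨hW1, hW2, -, hW4, -⟩ := h4
  refine ⟨C₁ * C₂, by positivity, ?_⟩
  intro L a b f h hL ha hb hf hh hfa hhb
  have hL0 : 0 < L := by linarith
  obtain ⟨K, hK⟩ : ∃ K : ℝ, K = (a + b) * L := ⟨_, rfl⟩
  have hwK : ∀ (t : ℝ) (ξ : E), wt L (max t 0) ξ ≤ L * Wg 2 1 1 ξ := by
    intro t ξ
    refine le_trans (hW2 L (max t 0) ξ hL (le_max_right _ _)).2 ?_
    exact mul_le_mul_of_nonneg_left (hW4 6 2 ξ (by norm_num)) hL0.le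
  have hWpos : ∀ ξ : E, 0 < Wg 2 1 1 ξ := fun ξ => (hW1 2 1 1 ξ one_pos one_pos).1
  have hfL : ∀ t ξ, |f t ξ| ≤ a * L * Wg 2 1 1 ξ := by
    intro t ξ
    refine le_trans (hfa t ξ) ?_
    rw [mul_assoc]
    exact mul_le_mul_of_nonneg_left (hwK t ξ) ha
  have hhL : ∀ t ξ, |h t ξ| ≤ b * L * Wg 2 1 1 ξ := by
    intro t ξ
    refine le_trans (hhb t ξ) ?_
    rw [mul_assoc]
    exact mul_le_mul_of_nonneg_left (hwK t ξ) hb
  have hfK : ∀ t ξ, |f t ξ| ≤ K * Wg 2 1 1 ξ := by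
    intro t ξ
    refine le_trans (hfL t ξ) ?_
    apply mul_le_mul_of_nonneg_right _ (hWpos ξ).le
    rw [hK]
    nlinarith
  have hhK : ∀ t ξ, |h t ξ| ≤ K * Wg 2 1 1 ξ := by
    intro t ξ
    refine le_trans (hhL t ξ) ?_
    apply mul_le_mul_of_nonneg_right _ (hWpos ξ).le
    rw [hK]
    nlinarith
  have hdc : Continuous (fun z : ℝ × E => (fun t ξ => f t ξ - h t ξ) z.1 z.2) := hf.sub hh
  have hdK : ∀ t ξ, |(fun t ξ => f t ξ - h t ξ) t ξ| ≤ K * Wg 2 1 1 ξ := by
    intro t ξ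
    simp only
    refine le_trans (abs_sub _ _) ?_
    refine le_trans (add_le_add (hfL t ξ) (hhL t ξ)) ?_
    rw [hK]
    apply le_of_eq
    ring
  refine ⟨cont_BB h3 f h K hf hh hfK hhK, ?_, ?_⟩
  · intro t ξ
    obtain ⟨T, hT⟩ : ∃ T : ℝ, T = max t 0 := ⟨_, rfl⟩
    have hT0 : 0 ≤ T := hT ▸ le_max_right _ _
    unfold BB
    rw [← hT]
    have hbound : ∀ s : ℝ, s ∈ Set.Ioc 0 T →
        ‖Real.exp (-(T - s) * ‖ξ‖ ^ 2) * NN (f s) (h s) ξ‖ ≤
        C₁ * a * b * L * (Real.exp (-(T - s) * ‖ξ‖ ^ 2) * ‖ξ‖ / Real.sqrt (s + 1)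
          * Wg 6 (Real.sqrt (s + 1)) L ξ) := by
      intro s hs
      have hs0 : max s 0 = s := max_eq_left hs.1.le
      have hsq : 0 < Real.sqrt (s + 1) := Real.sqrt_pos.2 (by linarith [hs.1])
      have h9 := (h1 (Real.sqrt (s + 1)) L (a * L) (b * L) (f s) (h s) hsq hL0 (by positivity)
        (by positivity) (cont_slice f hf s) (cont_slice h hh s)
        (by
          intro η
          have h10 := hfa s η
          rw [hs0] at h10
          unfold wt at h10
          rw [mul_assoc]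
          exact h10)
        (by
          intro η
          have h10 := hhb s η
          rw [hs0] at h10
          unfold wt at h10
          rw [mul_assoc]
          exact h10) ξ).2
      rw [norm_mul, Real.norm_eq_abs, Real.norm_eq_abs, abs_of_pos (Real.exp_pos _)]
      calc Real.exp (-(T - s) * ‖ξ‖ ^ 2) * |NN (f s) (h s) ξ| ≤
          Real.exp (-(T - s) * ‖ξ‖ ^ 2) * (C₁ / (Real.sqrt (s + 1) * L) * (a * L) * (b * L) * ‖ξ‖ *
            Wg 6 (Real.sqrt (s + 1)) L ξ) :=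
            mul_le_mul_of_nonneg_left h9 (Real.exp_pos _).le
        _ = _ := by
          field_simp
    have hgi := gint L hL0 T hT0 ξ
    have h11 := intervalIntegral.norm_integral_le_of_norm_le (μ := volume) hT0
      (Filter.Eventually.of_forall hbound) (hgi.const_mul (C₁ * a * b * L))
    rw [intervalIntegral.integral_const_mul, Real.norm_eq_abs] at h11
    refine le_trans h11 ?_
    calc C₁ * a * b * L * ∫ s in (0 : ℝ)..T, Real.exp (-(T - s) * ‖ξ‖ ^ 2) * ‖ξ‖ / Real.sqrt (s + 1)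
          * Wg 6 (Real.sqrt (s + 1)) L ξ ≤
        C₁ * a * b * L * (C₂ * Wg 6 (Real.sqrt (T + 1)) L ξ) :=
          mul_le_mul_of_nonneg_left (h2 L T ξ hL0 hT0) (by positivity)
      _ = C₁ * C₂ * a * b * wt L T ξ := by
          unfold wt
          ring
  · intro t ξ
    have i1 := int_s h3 f f K hf hf hfK hfK t ξ 0 (max t 0)
    have i2 := int_s h3 h h K hh hh hhK hhK t ξ 0 (max t 0)
    have i3 := int_s h3 (fun t ξ => f t ξ - h t ξ) f K hdc hf hdK hfK t ξ 0 (max t 0)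
    have i4 := int_s h3 h (fun t ξ => f t ξ - h t ξ) K hh hdc hhK hdK t ξ 0 (max t 0)
    unfold BB
    rw [← intervalIntegral.integral_sub i1 i2, ← intervalIntegral.integral_add i3 i4]
    apply intervalIntegral.integral_congr
    intro s hs
    rw [uIcc_of_le (le_max_right _ _)] at hs
    simp only
    have hs0 : max s 0 = s := max_eq_left hs.1
    have hsq : 0 < Real.sqrt (s + 1) := Real.sqrt_pos.2 (by linarith [hs.1])
    have hfs : ∀ η, |f s η| ≤ a * L * Wg 6 (Real.sqrt (s + 1)) L η := by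
      intro η
      have h10 := hfa s η
      rw [hs0] at h10
      unfold wt at h10
      rw [mul_assoc]
      exact h10
    have hhs : ∀ η, |h s η| ≤ b * L * Wg 6 (Real.sqrt (s + 1)) L η := by
      intro η
      have h10 := hhb s η
      rw [hs0] at h10
      unfold wt at h10
      rw [mul_assoc]
      exact h10
    have haL : 0 ≤ a * L := by positivity
    have hbL : 0 ≤ b * L := by positivity
    have hcf := cont_slice f hf s
    have hch := cont_slice h hh s
    have j1 := (h1 (Real.sqrt (s + 1)) L (a * L) (a * L) (f s) (f s) hsq hL0 haL haL hcf hcf hfs hfs ξ).1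
    have j2 := (h1 (Real.sqrt (s + 1)) L (b * L) (b * L) (h s) (h s) hsq hL0 hbL hbL hch hch hhs hhs ξ).1
    have j3 := (h1 (Real.sqrt (s + 1)) L (b * L) (a * L) (h s) (f s) hsq hL0 hbL haL hch hcf hhs hfs ξ).1
    have e1 : NN (fun ξ => f s ξ - h s ξ) (f s) ξ = NN (f s) (f s) ξ - NN (h s) (f s) ξ := by
      unfold NN
      rw [← integral_sub j1 j3]
      congr 1
      funext η
      ring
    have e2 : NN (h s) (fun ξ => f s ξ - h s ξ) ξ = NN (h s) (f s) ξ - NN (h s) (h s) ξ := by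
      unfold NN
      rw [← integral_sub j3 j2]
      congr 1
      funext η
      ring
    rw [e1, e2]
    ring

end Pool.Agent.W168.KG
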